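import Pool.Agent.helper12.TZ.Spec

/-! Row tz:ABS (MP_baa4d7_al): the abstract theorem -/

set_option autoImplicit false

namespace Pool.Agent.TZ

open Pool.Agent.helper58.DC Pool.Agent.DI Pool.Agent.GR Pool.Agent.OB

/-- the multiples of `n` -/
def ABS_I (p : ℕ) (M : Ideal (integralClosure ℤ ℂ)) (hS : Setup p M) (n : ℕ) : AddSubgroup ℂ where
  carrier := {x | ∃ v, IntAt M v ∧ x = (n : ℂ) * v}
  zero_mem' := ⟨0, IntAt.zero hS, by simp⟩
  add_mem' := by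
    rintro a b ⟨v, hv, rfl⟩ ⟨v', hv', rfl⟩
    exact ⟨v + v', IntAt.add hS hv hv', by ring⟩
  neg_mem' := by
    rintro a ⟨v, hv, rfl⟩
    exact ⟨-v, IntAt.neg hv, by ring⟩

/-- the permutations which commute with the action and preserve the weights -/
def ABS_T {D X : Type} [Group D] (act : D →* Equiv.Perm X) (w : X → ℂ) : Submonoid (Equiv.Perm X) where
  carrier := {τ | (∀ d, τ * act d = act d * τ) ∧ ∀ x, w (τ x) = w x}
  one_mem' := ⟨fun d => by rw [one_mul, mul_one], fun x => rfl⟩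
  mul_mem' := by
    rintro a b ⟨ha, ha'⟩ ⟨hb, hb'⟩
    refine ⟨fun d => ?_, fun x => ?_⟩
    · rw [mul_assoc, hb, ← mul_assoc, ha, mul_assoc]
    · rw [Equiv.Perm.mul_apply, ha', hb']

theorem ABS_arith (p c : ℕ) (M : Ideal (integralClosure ℤ ℂ)) (hS : Setup p M) (n : ℕ) (hn : n ≠ 0)
    (hnc : n < p ^ c) (r : ℂ) (hr : IntAt M r) (v : ℂ) (hv : IntAt M v)
    (h : (n : ℂ) * r = ((p ^ c : ℕ) : ℂ) * v) : InM M r := by
  obtain ⟨b, e, he, hbe⟩ := Nat.exists_eq_pow_mul_and_not_dvd hn p hS.pr.ne_one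
  have hp := hS.pr
  have hbc : b < c := by
    have h1 : p ^ b ≤ n := by
      rw [hbe]
      apply Nat.le_mul_of_pos_right
      rcases Nat.eq_zero_or_pos e with h0 | h0
      · rw [h0] at he
        exact absurd (dvd_zero p) he
      · exact h0
    exact (Nat.pow_lt_pow_iff_right hp.one_lt).1 (h1.trans_lt hnc)
  obtain ⟨j, rfl⟩ : ∃ j, c = b + (j + 1) := ⟨c - b - 1, by omega⟩
  have hpb : (p : ℂ) ^ b ≠ 0 := pow_ne_zero b hS.p_ne
  have h2 : (e : ℂ) * r = (p : ℂ) * ((p : ℂ) ^ j * v) := by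
    apply mul_left_cancel₀ hpb
    rw [hbe] at h
    push_cast at h
    linear_combination h
  have h3 : InM M ((e : ℂ) * r) := by
    rw [h2]
    exact InM.mul_right hS (InM.prime_mem hS) (IntAt.mul hS (IntAt.pow hS (by
      have := IntAt.natCast hS p
      exact this) j) hv)
  rcases InM.or hS (IntAt.natCast hS e) hr h3 with h4 | h4
  · exact absurd ((InM.natCast hS e).1 h4) he
  · exact h4

theorem ABS (hHOM : HOM_stmt) (hADP : ADP_stmt) : ABS_stmt := by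
  intro p c m A M hS D X _ _ _ act w f z α β γ hfree hw hact hα hβ hγ cα cβ cγ hb1 hb2 h4 hA hfz hX
  have hTα : α ∈ ABS_T act w := ⟨cα, hα⟩
  have hTβ : β ∈ ABS_T act w := ⟨cβ, hβ⟩
  have hTγ : γ ∈ ABS_T act w := ⟨cγ, hγ⟩
  have hTm : α ^ m ∈ ABS_T act w := Submonoid.pow_mem _ hTα m
  obtain ⟨k, hk, v, hv, hPhm⟩ := hADP p c A M hS D X act w f (α ^ m) hfree hw hact hTm.2 hTm.1 hA hX
  obtain ⟨g1, g2, g3⟩ := hHOM p c M hS D X act w f k hw hact hk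
  have hadd : ∀ τ₁ ∈ ABS_T act w, ∀ τ₂ ∈ ABS_T act w,
      (QuotientAddGroup.mk (Ph f k w (τ₁ * τ₂)) : ℂ ⧸ ABS_I p M hS (p ^ c)) =
        QuotientAddGroup.mk (Ph f k w τ₁) + QuotientAddGroup.mk (Ph f k w τ₂) := by
    intro τ₁ h1 τ₂ h2
    obtain ⟨v, hv, hh⟩ := g3 τ₁ τ₂ h1.1 h2.1 h1.2 h2.2
    rw [← QuotientAddGroup.mk_add, eq_comm, QuotientAddGroup.eq]
    exact ⟨v, hv, by rw [← hh]; ring⟩
  obtain ⟨Φ, hΦ⟩ : ∃ Φ : ABS_T act w →* Multiplicative (ℂ ⧸ ABS_I p M hS (p ^ c)),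
      ∀ τ : ABS_T act w, Φ τ = Multiplicative.ofAdd (QuotientAddGroup.mk (Ph f k w τ)) := by
    have h1 : ∀ τ₁ τ₂ : ABS_T act w, (Multiplicative.ofAdd (QuotientAddGroup.mk (Ph f k w ((τ₁ * τ₂ : ABS_T act w) :
        Equiv.Perm X))) : Multiplicative (ℂ ⧸ ABS_I p M hS (p ^ c))) =
        Multiplicative.ofAdd (QuotientAddGroup.mk (Ph f k w τ₁)) *
          Multiplicative.ofAdd (QuotientAddGroup.mk (Ph f k w τ₂)) := by
      intro τ₁ τ₂
      rw [← ofAdd_add, ← hadd _ τ₁.2 _ τ₂.2]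
      rfl
    refine ⟨⟨⟨fun τ => Multiplicative.ofAdd (QuotientAddGroup.mk (Ph f k w τ)), ?_⟩, h1⟩, fun τ => rfl⟩
    have h2 := h1 1 1
    rw [mul_one] at h2
    exact (left_eq_mul.1 h2)
  -- the relations
  obtain ⟨a, ha⟩ : ∃ a : ABS_T act w, a = ⟨α, hTα⟩ := ⟨_, rfl⟩
  obtain ⟨b, hb⟩ : ∃ b : ABS_T act w, b = ⟨β, hTβ⟩ := ⟨_, rfl⟩
  obtain ⟨g, hg⟩ : ∃ g : ABS_T act w, g = ⟨γ, hTγ⟩ := ⟨_, rfl⟩
  have hab : a * b * a = b * a * b := by
    apply Subtype.ext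
    rw [ha, hb]
    exact hb1
  have hgb : g * b * g = b * g * b := by
    apply Subtype.ext
    rw [hg, hb]
    exact hb2
  have e1 : Φ a = Φ b := by
    have h1 := congrArg Φ hab
    simp only [map_mul] at h1
    have h2 : Φ b * Φ a * Φ b = Φ a * Φ b * Φ b := by rw [mul_comm (Φ b) (Φ a)]
    rw [h2] at h1
    exact mul_left_cancel h1
  have e2 : Φ g = Φ b := by
    have h1 := congrArg Φ hgb
    simp only [map_mul] at h1
    have h2 : Φ b * Φ g * Φ b = Φ g * Φ b * Φ b := by rw [mul_comm (Φ b) (Φ g)]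
    rw [h2] at h1
    exact mul_left_cancel h1
  have e3 : Φ (a ^ m) = 1 := by
    rw [hΦ]
    have h1 : ((a ^ m : ABS_T act w) : Equiv.Perm X) = α ^ m := by
      rw [ha]
      rfl
    rw [h1, ← ofAdd_zero]
    congr 1
    rw [QuotientAddGroup.eq_zero_iff]
    exact ⟨v, hv, hPhm⟩
  have e4 : Φ (((a * b * g) ^ 4) ^ m) = 1 := by
    have h1 : Φ (((a * b * g) ^ 4) ^ m) = Φ (a ^ m) ^ 12 := by
      simp only [map_pow, map_mul]
      rw [e2, ← e1]
      rw [← pow_mul, ← pow_mul, ← pow_two, ← pow_succ, ← pow_mul]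
      congr 1
      ring
    rw [h1, e3, one_pow]
  have hz : ((((a * b * g) ^ 4) ^ m : ABS_T act w) : Equiv.Perm X) = act z := by
    rw [ha, hb, hg, ← h4]
    rfl
  have e5 : Ph f k w (act z) ∈ ABS_I p M hS (p ^ c) := by
    rw [hΦ, hz, ← ofAdd_zero] at e4
    have e6 := Multiplicative.ofAdd.injective e4
    rwa [QuotientAddGroup.eq_zero_iff] at e6
  obtain ⟨v', hv', he5⟩ := e5
  rw [g2] at he5
  have hr : IntAt M (∑ᶠ x ∈ {x : X | k x = 1}, w x) := by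
    apply IntAt.finsum_mem hS
    intro x _
    exact hw x
  have : NeZero (p ^ c) := ⟨pow_ne_zero c hS.pr.ne_zero⟩
  refine ⟨∑ᶠ x ∈ {x : X | k x = 1}, w x, ?_, g1⟩
  refine ABS_arith p c M hS (Multiplicative.toAdd (f z)).val ?_ (ZMod.val_lt _) _ hr v' hv' he5
  intro h0
  rw [ZMod.val_eq_zero] at h0
  exact hfz (Multiplicative.toAdd.injective h0)

end Pool.Agent.TZ
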