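import Pool.Agent.helper12.TZ.Spec

/-! Row tz:BRD (MP_baa4d7_al): the action and the twists -/

set_option autoImplicit false

namespace Pool.Agent.TZ

open Pool.Agent.helper58.DC Pool.Agent.DI Pool.Agent.GR Pool.Agent.OB

theorem BRD_chainMul {G : Type} [Group G] (a b : G) (C : Finset (Subgroup G)) :
    chainMap (MulAut.conj (a * b)) C = chainMap (MulAut.conj a) (chainMap (MulAut.conj b) C) := by
  classical
  unfold chainMap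
  rw [Finset.image_image, map_mul]
  refine Finset.image_congr fun P _ => ?_
  change P.map _ = (P.map _).map _
  rw [Subgroup.map_map]
  rfl

theorem BRD_chainOne {G : Type} [Group G] (C : Finset (Subgroup G)) :
    chainMap (MulAut.conj (1 : G)) C = C := by
  classical
  unfold chainMap
  rw [map_one]
  have h : ∀ P : Subgroup G, P.map (1 : MulAut G).toMonoidHom = P := fun P => Subgroup.map_id P
  rw [Finset.image_congr (g := id) (fun P _ => h P), Finset.image_id]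

theorem BRD_card {G : Type} [Group G] (d : G) (C : Finset (Subgroup G)) :
    (chainMap (MulAut.conj d) C).card = C.card := by
  classical
  unfold chainMap
  apply Finset.card_image_of_injective
  intro P Q h
  exact Subgroup.map_injective (MulAut.conj d).injective h

theorem BRD_cjMul {G : Type} [Group G] (a b : G) (x : Tr G) : cjT (a * b) x = cjT a (cjT b x) := by
  refine Prod.ext ?_ (Prod.ext ?_ ?_)
  · show a * b * x.1 * (a * b)⁻¹ = a * (b * x.1 * b⁻¹) * a⁻¹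
    group
  · show a * b * x.2.1 * (a * b)⁻¹ = a * (b * x.2.1 * b⁻¹) * a⁻¹
    group
  · exact BRD_chainMul a b x.2.2

theorem BRD_cjOne {G : Type} [Group G] (x : Tr G) : cjT 1 x = x := by
  refine Prod.ext ?_ (Prod.ext ?_ ?_)
  · show 1 * x.1 * 1⁻¹ = x.1
    group
  · show 1 * x.2.1 * 1⁻¹ = x.2.1
    group
  · exact BRD_chainOne x.2.2

/-- the weights under conjugation by `d` with `d g = g d` -/
theorem BRD_wt_cj {G : Type} [Group G] (g d : G) (hd : d * g = g * d) (x : Tr G) (ζ : G → ℂ)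
    (hζ : ∀ u v, ζ (v * u * v⁻¹) = ζ u) : wt g ζ (cjT d x) = wt g ζ x := by
  obtain ⟨t, y, C⟩ := x
  show (-1) ^ ((chainMap (MulAut.conj d) C).card + 1) *
    ζ (d * t * d⁻¹ * (d * y * d⁻¹) * (d * t * d⁻¹)⁻¹ * (d * y * d⁻¹)⁻¹ * g)⁻¹ =
      (-1) ^ (C.card + 1) * ζ (t * y * t⁻¹ * y⁻¹ * g)⁻¹
  rw [BRD_card]
  congr 1
  have h1 : (d * t * d⁻¹ * (d * y * d⁻¹) * (d * t * d⁻¹)⁻¹ * (d * y * d⁻¹)⁻¹ * g)⁻¹ =
      d * (t * y * t⁻¹ * y⁻¹ * g)⁻¹ * d⁻¹ := by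
    have h2 : d⁻¹ * g = g * d⁻¹ := by
      rw [inv_mul_eq_iff_eq_mul, ← mul_assoc, hd, mul_assoc, mul_inv_cancel, mul_one]
    have h3 : d * t * d⁻¹ * (d * y * d⁻¹) * (d * t * d⁻¹)⁻¹ * (d * y * d⁻¹)⁻¹ * g =
        d * (t * y * t⁻¹ * y⁻¹) * (d⁻¹ * g) := by group
    rw [h3, h2]
    group
  rw [h1, hζ]

theorem BRD_mem {G : Type} [Group G] (p : ℕ) (g : G) (D : Subgroup G) (t y : G) (C : Finset (Subgroup G)) :
    (t, y, C) ∈ XX p g D ↔ PCh p ⊤ ⊥ C ∧ t ∈ nrm C ∧ y ∈ nrm C ∧ g ∈ nrm C ∧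
      ∀ h ∈ D, h ∈ nrm C → h * t = t * h → h * y = y * h → h = 1 := by
  constructor
  · rintro ⟨h1, h2, h3, h4, h5⟩
    refine ⟨h1, h2, h3, h4, ?_⟩
    intro h hD hC ht hy
    refine h5 h ?_ hy
    show h ∈ D ⊓ Subgroup.centralizer {t} ⊓ nrm C
    rw [Subgroup.mem_inf, Subgroup.mem_inf, Subgroup.mem_centralizer_singleton_iff]
    exact ⟨⟨hD, ht⟩, hC⟩
  · rintro ⟨h1, h2, h3, h4, h5⟩
    refine ⟨h1, h2, h3, h4, ?_⟩
    intro h hh hy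
    have hh' : h ∈ D ⊓ Subgroup.centralizer {t} ⊓ nrm C := hh
    rw [Subgroup.mem_inf, Subgroup.mem_inf, Subgroup.mem_centralizer_singleton_iff] at hh'
    exact h5 h hh'.1.1 hh'.2 hh'.1.2 hy

theorem BRD_step {G : Type} [Group G] (p : ℕ) (g : G) (D : Subgroup G) (hDg : ∀ d ∈ D, d * g = g * d)
    (t y t' y' : G) (C : Finset (Subgroup G))
    (h1 : ∀ K : Subgroup G, t ∈ K → y ∈ K → g ∈ K → t' ∈ K ∧ y' ∈ K)
    (h2 : ∀ K : Subgroup G, t' ∈ K → y' ∈ K → g ∈ K → t ∈ K ∧ y ∈ K) (h : (t, y, C) ∈ XX p g D) :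
    (t', y', C) ∈ XX p g D := by
  rw [BRD_mem] at h ⊢
  obtain ⟨a1, a2, a3, a4, a5⟩ := h
  obtain ⟨b1, b2⟩ := h1 _ a2 a3 a4
  refine ⟨a1, b1, b2, a4, ?_⟩
  intro h hD hC ht hy
  have c1 : t' ∈ Subgroup.centralizer {h} := by
    rw [Subgroup.mem_centralizer_singleton_iff]
    exact ht.symm
  have c2 : y' ∈ Subgroup.centralizer {h} := by
    rw [Subgroup.mem_centralizer_singleton_iff]
    exact hy.symm
  have c3 : g ∈ Subgroup.centralizer {h} := by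
    rw [Subgroup.mem_centralizer_singleton_iff]
    exact (hDg h hD).symm
  obtain ⟨d1, d2⟩ := h2 _ c1 c2 c3
  rw [Subgroup.mem_centralizer_singleton_iff] at d1 d2
  exact a5 h hD hC d1.symm d2.symm

theorem BRD (hCLB : CLB_stmt) (hSN : Pool.Agent.helper58.DC.SN_stmt) : BRD_stmt := by
  intro G _ _ p g D hDg
  -- the action
  have hact : ∀ d ∈ D, ∀ x ∈ XX p g D, cjT d x ∈ XX p g D := fun d hd x hx => (hCLB G p 0 g D hDg d hd x hx).1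
  let act : D →* Equiv.Perm (XX p g D) :=
    { toFun := fun d =>
        { toFun := fun x => ⟨cjT (d : G) x.1, hact d d.2 x.1 x.2⟩
          invFun := fun x => ⟨cjT ((d : G)⁻¹) x.1, hact _ (D.inv_mem d.2) x.1 x.2⟩
          left_inv := fun x => Subtype.ext (by
            show cjT ((d : G)⁻¹) (cjT (d : G) x.1) = x.1
            rw [← BRD_cjMul, inv_mul_cancel, BRD_cjOne])
          right_inv := fun x => Subtype.ext (by
            show cjT (d : G) (cjT ((d : G)⁻¹) x.1) = x.1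
            rw [← BRD_cjMul, mul_inv_cancel, BRD_cjOne]) }
      map_one' := by
        ext x : 1
        exact Subtype.ext (BRD_cjOne x.1)
      map_mul' := by
        intro a b
        ext x : 1
        exact Subtype.ext (BRD_cjMul (a : G) (b : G) x.1) }
  -- the twists
  have hα : ∀ t y C, (t, y, C) ∈ XX p g D → (t, y * t, C) ∈ XX p g D := by
    intro t y C h
    refine BRD_step p g D hDg t y _ _ C ?_ ?_ h
    · intro K ht hy hg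
      exact ⟨ht, K.mul_mem hy ht⟩
    · intro K ht hy hg
      exact ⟨ht, (Subgroup.mul_mem_cancel_right K ht).1 hy⟩
  have hα' : ∀ t y C, (t, y, C) ∈ XX p g D → (t, y * t⁻¹, C) ∈ XX p g D := by
    intro t y C h
    refine BRD_step p g D hDg t y _ _ C ?_ ?_ h
    · intro K ht hy hg
      exact ⟨ht, K.mul_mem hy (K.inv_mem ht)⟩
    · intro K ht hy hg
      exact ⟨ht, (Subgroup.mul_mem_cancel_right K (K.inv_mem ht)).1 hy⟩
  have hβ : ∀ t y C, (t, y, C) ∈ XX p g D → (t * y⁻¹, y, C) ∈ XX p g D := by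
    intro t y C h
    refine BRD_step p g D hDg t y _ _ C ?_ ?_ h
    · intro K ht hy hg
      exact ⟨K.mul_mem ht (K.inv_mem hy), hy⟩
    · intro K ht hy hg
      exact ⟨(Subgroup.mul_mem_cancel_right K (K.inv_mem hy)).1 ht, hy⟩
  have hβ' : ∀ t y C, (t, y, C) ∈ XX p g D → (t * y, y, C) ∈ XX p g D := by
    intro t y C h
    refine BRD_step p g D hDg t y _ _ C ?_ ?_ h
    · intro K ht hy hg
      exact ⟨K.mul_mem ht hy, hy⟩
    · intro K ht hy hg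
      exact ⟨(Subgroup.mul_mem_cancel_right K hy).1 ht, hy⟩
  have hγ : ∀ t y C, (t, y, C) ∈ XX p g D → (t, g * t * y, C) ∈ XX p g D := by
    intro t y C h
    refine BRD_step p g D hDg t y _ _ C ?_ ?_ h
    · intro K ht hy hg
      exact ⟨ht, K.mul_mem (K.mul_mem hg ht) hy⟩
    · intro K ht hy hg
      exact ⟨ht, (Subgroup.mul_mem_cancel_left K (K.mul_mem hg ht)).1 hy⟩
  have hγ' : ∀ t y C, (t, y, C) ∈ XX p g D → (t, t⁻¹ * g⁻¹ * y, C) ∈ XX p g D := by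
    intro t y C h
    refine BRD_step p g D hDg t y _ _ C ?_ ?_ h
    · intro K ht hy hg
      exact ⟨ht, K.mul_mem (K.mul_mem (K.inv_mem ht) (K.inv_mem hg)) hy⟩
    · intro K ht hy hg
      exact ⟨ht, (Subgroup.mul_mem_cancel_left K (K.mul_mem (K.inv_mem ht) (K.inv_mem hg))).1 hy⟩
  let α : Equiv.Perm (XX p g D) :=
    { toFun := fun x => ⟨(x.1.1, x.1.2.1 * x.1.1, x.1.2.2), hα _ _ _ x.2⟩
      invFun := fun x => ⟨(x.1.1, x.1.2.1 * x.1.1⁻¹, x.1.2.2), hα' _ _ _ x.2⟩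
      left_inv := fun x => Subtype.ext (Prod.ext rfl (Prod.ext (by
        show x.1.2.1 * x.1.1 * x.1.1⁻¹ = x.1.2.1
        group) rfl))
      right_inv := fun x => Subtype.ext (Prod.ext rfl (Prod.ext (by
        show x.1.2.1 * x.1.1⁻¹ * x.1.1 = x.1.2.1
        group) rfl)) }
  let β : Equiv.Perm (XX p g D) :=
    { toFun := fun x => ⟨(x.1.1 * x.1.2.1⁻¹, x.1.2.1, x.1.2.2), hβ _ _ _ x.2⟩
      invFun := fun x => ⟨(x.1.1 * x.1.2.1, x.1.2.1, x.1.2.2), hβ' _ _ _ x.2⟩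
      left_inv := fun x => Subtype.ext (Prod.ext (by
        show x.1.1 * x.1.2.1⁻¹ * x.1.2.1 = x.1.1
        group) rfl)
      right_inv := fun x => Subtype.ext (Prod.ext (by
        show x.1.1 * x.1.2.1 * x.1.2.1⁻¹ = x.1.1
        group) rfl) }
  let γ : Equiv.Perm (XX p g D) :=
    { toFun := fun x => ⟨(x.1.1, g * x.1.1 * x.1.2.1, x.1.2.2), hγ _ _ _ x.2⟩
      invFun := fun x => ⟨(x.1.1, x.1.1⁻¹ * g⁻¹ * x.1.2.1, x.1.2.2), hγ' _ _ _ x.2⟩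
      left_inv := fun x => Subtype.ext (Prod.ext rfl (Prod.ext (by
        show x.1.1⁻¹ * g⁻¹ * (g * x.1.1 * x.1.2.1) = x.1.2.1
        group) rfl))
      right_inv := fun x => Subtype.ext (Prod.ext rfl (Prod.ext (by
        show g * x.1.1 * (x.1.1⁻¹ * g⁻¹ * x.1.2.1) = x.1.2.1
        group) rfl)) }
  have w2 : ∀ x : XX p g D, ((((α * β * γ) ^ 2) x : XX p g D) : Tr G) =
      (x.1.1⁻¹ * g⁻¹, g * x.1.1 * x.1.1 * x.1.2.1⁻¹ * x.1.1⁻¹ * g⁻¹ * x.1.1⁻¹ * g⁻¹, x.1.2.2) := by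
    rintro ⟨⟨t, y, C⟩, hx⟩
    rw [pow_two]
    refine Prod.ext ?_ (Prod.ext ?_ rfl)
    · show t * (g * t * y)⁻¹ * (g * (t * (g * t * y)⁻¹) * (g * t * y * (t * (g * t * y)⁻¹)))⁻¹ = t⁻¹ * g⁻¹
      group
    · show g * (t * (g * t * y)⁻¹) * (g * t * y * (t * (g * t * y)⁻¹)) *
        (t * (g * t * y)⁻¹ * (g * (t * (g * t * y)⁻¹) * (g * t * y * (t * (g * t * y)⁻¹)))⁻¹) =
          g * t * t * y⁻¹ * t⁻¹ * g⁻¹ * t⁻¹ * g⁻¹
      group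
  refine ⟨act, α, β, γ, fun d x => rfl, fun x => rfl, ?_, ?_, ?_, ?_, ?_, ?_, ?_⟩
  · intro d
    ext x : 1
    refine Subtype.ext (Prod.ext rfl (Prod.ext ?_ rfl))
    show (d : G) * x.1.2.1 * (d : G)⁻¹ * ((d : G) * x.1.1 * (d : G)⁻¹) = (d : G) * (x.1.2.1 * x.1.1) * (d : G)⁻¹
    group
  · intro d
    ext x : 1
    refine Subtype.ext (Prod.ext ?_ rfl)
    show (d : G) * x.1.1 * (d : G)⁻¹ * ((d : G) * x.1.2.1 * (d : G)⁻¹)⁻¹ = (d : G) * (x.1.1 * x.1.2.1⁻¹) * (d : G)⁻¹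
    group
  · intro d
    ext x : 1
    refine Subtype.ext (Prod.ext rfl (Prod.ext ?_ rfl))
    show g * ((d : G) * x.1.1 * (d : G)⁻¹) * ((d : G) * x.1.2.1 * (d : G)⁻¹) =
      (d : G) * (g * x.1.1 * x.1.2.1) * (d : G)⁻¹
    calc g * ((d : G) * x.1.1 * (d : G)⁻¹) * ((d : G) * x.1.2.1 * (d : G)⁻¹)
        = (g * (d : G)) * x.1.1 * x.1.2.1 * (d : G)⁻¹ := by group
      _ = ((d : G) * g) * x.1.1 * x.1.2.1 * (d : G)⁻¹ := by rw [hDg d d.2]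
      _ = _ := by group
  · ext x : 1
    refine Subtype.ext (Prod.ext ?_ (Prod.ext ?_ rfl))
    · show x.1.1 * (x.1.2.1 * x.1.1)⁻¹ = x.1.1 * x.1.2.1⁻¹ * (x.1.2.1 * (x.1.1 * x.1.2.1⁻¹))⁻¹
      group
    · show x.1.2.1 * x.1.1 * (x.1.1 * (x.1.2.1 * x.1.1)⁻¹) = x.1.2.1 * (x.1.1 * x.1.2.1⁻¹)
      group
  · ext x : 1
    refine Subtype.ext (Prod.ext ?_ (Prod.ext ?_ rfl))
    · show x.1.1 * (g * x.1.1 * x.1.2.1)⁻¹ = x.1.1 * x.1.2.1⁻¹ * (g * (x.1.1 * x.1.2.1⁻¹) * x.1.2.1)⁻¹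
      group
    · show g * (x.1.1 * (g * x.1.1 * x.1.2.1)⁻¹) * (g * x.1.1 * x.1.2.1) = g * (x.1.1 * x.1.2.1⁻¹) * x.1.2.1
      group
  · intro x
    have h1 : ((α * β * γ) ^ 4) x = ((α * β * γ) ^ 2) (((α * β * γ) ^ 2) x) := by
      rw [← Equiv.Perm.mul_apply, ← pow_add]
    rw [h1, w2, w2]
    have h2 : chainMap (MulAut.conj g) x.1.2.2 = x.1.2.2 := (hSN G x.1.2.2 x.2.1.chain g).2 x.2.2.2.2.1
    refine Prod.ext ?_ (Prod.ext ?_ h2.symm)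
    · show (x.1.1⁻¹ * g⁻¹)⁻¹ * g⁻¹ = g * x.1.1 * g⁻¹
      group
    · show g * (x.1.1⁻¹ * g⁻¹) * (x.1.1⁻¹ * g⁻¹) *
        (g * x.1.1 * x.1.1 * x.1.2.1⁻¹ * x.1.1⁻¹ * g⁻¹ * x.1.1⁻¹ * g⁻¹)⁻¹ * (x.1.1⁻¹ * g⁻¹)⁻¹ * g⁻¹ *
          (x.1.1⁻¹ * g⁻¹)⁻¹ * g⁻¹ = g * x.1.2.1 * g⁻¹
      group
  · intro ζ hζ
    refine ⟨?_, ?_, ?_, ?_⟩
    · intro d x
      exact BRD_wt_cj g d (hDg d d.2) x.1 ζ hζ
    · intro x
      show (-1) ^ (x.1.2.2.card + 1) * ζ (x.1.1 * (x.1.2.1 * x.1.1) * x.1.1⁻¹ * (x.1.2.1 * x.1.1)⁻¹ * g)⁻¹ =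
        (-1) ^ (x.1.2.2.card + 1) * ζ (x.1.1 * x.1.2.1 * x.1.1⁻¹ * x.1.2.1⁻¹ * g)⁻¹
      have h1 : x.1.1 * (x.1.2.1 * x.1.1) * x.1.1⁻¹ * (x.1.2.1 * x.1.1)⁻¹ * g =
          x.1.1 * x.1.2.1 * x.1.1⁻¹ * x.1.2.1⁻¹ * g := by group
      rw [h1]
    · intro x
      show (-1) ^ (x.1.2.2.card + 1) * ζ (x.1.1 * x.1.2.1⁻¹ * x.1.2.1 * (x.1.1 * x.1.2.1⁻¹)⁻¹ * x.1.2.1⁻¹ * g)⁻¹ =
        (-1) ^ (x.1.2.2.card + 1) * ζ (x.1.1 * x.1.2.1 * x.1.1⁻¹ * x.1.2.1⁻¹ * g)⁻¹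
      have h1 : x.1.1 * x.1.2.1⁻¹ * x.1.2.1 * (x.1.1 * x.1.2.1⁻¹)⁻¹ * x.1.2.1⁻¹ * g =
          x.1.1 * x.1.2.1 * x.1.1⁻¹ * x.1.2.1⁻¹ * g := by group
      rw [h1]
    · intro x
      show (-1) ^ (x.1.2.2.card + 1) *
        ζ (x.1.1 * (g * x.1.1 * x.1.2.1) * x.1.1⁻¹ * (g * x.1.1 * x.1.2.1)⁻¹ * g)⁻¹ =
        (-1) ^ (x.1.2.2.card + 1) * ζ (x.1.1 * x.1.2.1 * x.1.1⁻¹ * x.1.2.1⁻¹ * g)⁻¹
      have h1 : (x.1.1 * (g * x.1.1 * x.1.2.1) * x.1.1⁻¹ * (g * x.1.1 * x.1.2.1)⁻¹ * g)⁻¹ =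
          (x.1.1 * g) * (x.1.1 * x.1.2.1 * x.1.1⁻¹ * x.1.2.1⁻¹ * g)⁻¹ * (x.1.1 * g)⁻¹ := by group
      rw [h1, hζ]

end Pool.Agent.TZ
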