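import Pool.Agent.helper12.TZ.Spec

/-! Row tz:HOM (MP_baa4d7_al): the transfer is additive -/

set_option autoImplicit false

namespace Pool.Agent.TZ

open Pool.Agent.helper58.DC Pool.Agent.DI Pool.Agent.GR Pool.Agent.OB

theorem HOM_mem {X D : Type} [Group D] [Fintype X] [DecidableEq D] (k : X → D) (F : X → ℂ) :
    ∑ᶠ x ∈ {x : X | k x = 1}, F x = ∑ x ∈ Finset.univ.filter (fun x => k x = 1), F x := by
  have h : {x : X | k x = 1} = ((Finset.univ.filter (fun x => k x = 1) : Finset X) : Set X) := by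
    ext x
    simp
  rw [h, finsum_mem_coe_finset]

/-- the induced map on the section `k = 1` -/
theorem HOM_pres {D X : Type} [Group D] (act : D →* Equiv.Perm X) (k : X → D)
    (hk : ∀ d x, k (act d x) = d * k x) (τ : Equiv.Perm X) (x : X) :
    k (act (k (τ x))⁻¹ (τ x)) = 1 := by
  rw [hk, inv_mul_cancel]

theorem HOM_inv {D X : Type} [Group D] (act : D →* Equiv.Perm X) (k : X → D)
    (hk : ∀ d x, k (act d x) = d * k x) (τ σ : Equiv.Perm X) (hσ : ∀ d, σ * act d = act d * σ)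
    (hστ : σ * τ = 1) (x : X) (hx : k x = 1) :
    act (k (σ (act (k (τ x))⁻¹ (τ x))))⁻¹ (σ (act (k (τ x))⁻¹ (τ x))) = x := by
  have h1 : σ (act (k (τ x))⁻¹ (τ x)) = act (k (τ x))⁻¹ x := by
    have h2 := congrArg (fun e : Equiv.Perm X => e (τ x)) (hσ (k (τ x))⁻¹)
    have h3 : σ (act (k (τ x))⁻¹ (τ x)) = act (k (τ x))⁻¹ (σ (τ x)) := h2
    have h4 : σ (τ x) = x := by
      have := congrArg (fun e : Equiv.Perm X => e x) hστ
      exact this
    rw [h3, h4]
  rw [h1, hk, hx, mul_one, inv_inv, ← Equiv.Perm.mul_apply, ← map_mul, mul_inv_cancel, map_one, Equiv.Perm.one_apply]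

theorem HOM : HOM_stmt := by
  classical
  intro p c M hS D X _ _ _ act w f k hw hact hk
  have : Fintype X := Fintype.ofFinite X
  have : Fintype D := Fintype.ofFinite D
  have : NeZero (p ^ c) := ⟨pow_ne_zero c hS.pr.ne_zero⟩
  have hsub : ∀ (τ σ : Equiv.Perm X), (∀ d, τ * act d = act d * τ) → (∀ d, σ * act d = act d * σ) →
      σ * τ = 1 → τ * σ = 1 → (∀ x, w (τ x) = w x) → ∀ F : X → ℂ,
      ∑ x ∈ Finset.univ.filter (fun x => k x = 1), w x * F (act (k (τ x))⁻¹ (τ x)) =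
        ∑ x ∈ Finset.univ.filter (fun x => k x = 1), w x * F x := by
    intro τ σ hτ hσ h1 h2 hwτ F
    refine Finset.sum_nbij' (fun x => act (k (τ x))⁻¹ (τ x)) (fun x => act (k (σ x))⁻¹ (σ x)) ?_ ?_ ?_ ?_ ?_
    · intro x _
      rw [Finset.mem_filter]
      exact ⟨Finset.mem_univ _, HOM_pres act k hk τ x⟩
    · intro x _
      rw [Finset.mem_filter]
      exact ⟨Finset.mem_univ _, HOM_pres act k hk σ x⟩
    · intro x hx
      exact HOM_inv act k hk τ σ hσ h1 x (Finset.mem_filter.1 hx).2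
    · intro x hx
      exact HOM_inv act k hk σ τ hτ h2 x (Finset.mem_filter.1 hx).2
    · intro x _
      rw [hact, hwτ]
  refine ⟨?_, ?_, ?_⟩
  · rw [finsum_eq_sum_of_fintype, HOM_mem, ← Finset.sum_fiberwise Finset.univ k w]
    have h1 : ∀ d : D, ∑ x ∈ Finset.univ.filter (fun x => k x = d), w x =
        ∑ x ∈ Finset.univ.filter (fun x => k x = 1), w x := by
      intro d
      refine Finset.sum_nbij' (fun x => act d⁻¹ x) (fun x => act d x) ?_ ?_ ?_ ?_ ?_
      · intro x hx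
        rw [Finset.mem_filter] at hx ⊢
        exact ⟨Finset.mem_univ _, by rw [hk, hx.2, inv_mul_cancel]⟩
      · intro x hx
        rw [Finset.mem_filter] at hx ⊢
        exact ⟨Finset.mem_univ _, by rw [hk, hx.2, mul_one]⟩
      · intro x _
        rw [← Equiv.Perm.mul_apply, ← map_mul, mul_inv_cancel, map_one, Equiv.Perm.one_apply]
      · intro x _
        rw [← Equiv.Perm.mul_apply, ← map_mul, inv_mul_cancel, map_one, Equiv.Perm.one_apply]
      · intro x _
        rw [hact]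
    rw [Finset.sum_congr rfl (fun d _ => h1 d), Finset.sum_const, Finset.card_univ, nsmul_eq_mul,
      Nat.card_eq_fintype_card]
  · intro z
    unfold Ph
    rw [HOM_mem, HOM_mem, Finset.mul_sum]
    refine Finset.sum_congr rfl ?_
    intro x hx
    rw [Finset.mem_filter] at hx
    rw [hk, hx.2, mul_one, mul_comm]
  · intro τ₁ τ₂ h1 h2 hw1 hw2
    have h2i : ∀ d, τ₂⁻¹ * act d = act d * τ₂⁻¹ := by
      intro d
      rw [inv_mul_eq_iff_eq_mul, ← mul_assoc, h2 d, mul_assoc, mul_inv_cancel, mul_one]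
    have hPh1 : Ph f k w τ₁ = ∑ x ∈ Finset.univ.filter (fun x => k x = 1), w x *
        ((Multiplicative.toAdd (f (k (τ₁ (act (k (τ₂ x))⁻¹ (τ₂ x)))))).val : ℂ) := by
      unfold Ph
      rw [HOM_mem]
      exact (hsub τ₂ τ₂⁻¹ h2 h2i (inv_mul_cancel _) (mul_inv_cancel _) hw2
        (fun x => ((Multiplicative.toAdd (f (k (τ₁ x)))).val : ℂ))).symm
    have hPh2 : Ph f k w τ₂ = ∑ x ∈ Finset.univ.filter (fun x => k x = 1), w x *
        ((Multiplicative.toAdd (f (k (τ₂ x)))).val : ℂ) := by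
      unfold Ph
      rw [HOM_mem]
    have hPh : Ph f k w (τ₁ * τ₂) = ∑ x ∈ Finset.univ.filter (fun x => k x = 1), w x *
        ((Multiplicative.toAdd (f (k (τ₂ x))) +
          Multiplicative.toAdd (f (k (τ₁ (act (k (τ₂ x))⁻¹ (τ₂ x))))) : ZMod (p ^ c)).val : ℂ) := by
      unfold Ph
      rw [HOM_mem]
      refine Finset.sum_congr rfl ?_
      intro x _
      have e1 : (τ₁ * τ₂) x = act (k (τ₂ x)) (τ₁ (act (k (τ₂ x))⁻¹ (τ₂ x))) := by
        have e2 := congrArg (fun e : Equiv.Perm X => e (act (k (τ₂ x))⁻¹ (τ₂ x))) (h1 (k (τ₂ x)))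
        have e3 : τ₁ (act (k (τ₂ x)) (act (k (τ₂ x))⁻¹ (τ₂ x))) =
            act (k (τ₂ x)) (τ₁ (act (k (τ₂ x))⁻¹ (τ₂ x))) := e2
        rw [← e3, ← Equiv.Perm.mul_apply (act _) (act _), ← map_mul, mul_inv_cancel, map_one,
          Equiv.Perm.one_apply, Equiv.Perm.mul_apply]
      rw [e1, hk, map_mul, toAdd_mul]
    refine ⟨-∑ x ∈ Finset.univ.filter (fun x => k x = 1), w x *
        ((((Multiplicative.toAdd (f (k (τ₂ x)))).val +
          (Multiplicative.toAdd (f (k (τ₁ (act (k (τ₂ x))⁻¹ (τ₂ x)))))).val) / p ^ c : ℕ) : ℂ), ?_, ?_⟩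
    · apply IntAt.neg
      apply IntAt.sum hS
      intro x _
      exact IntAt.mul hS (hw x) (IntAt.natCast hS _)
    · rw [hPh, hPh1, hPh2, ← Finset.sum_sub_distrib, ← Finset.sum_sub_distrib, mul_neg, Finset.mul_sum,
        ← Finset.sum_neg_distrib]
      refine Finset.sum_congr rfl ?_
      intro x _
      generalize Multiplicative.toAdd (f (k (τ₂ x))) = a
      generalize Multiplicative.toAdd (f (k (τ₁ (act (k (τ₂ x))⁻¹ (τ₂ x))))) = b
      have e1 : a.val + b.val = (a + b).val + p ^ c * ((a.val + b.val) / p ^ c) := by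
        rw [ZMod.val_add]
        exact (Nat.mod_add_div _ _).symm
      have e2 : (a.val : ℂ) + (b.val : ℂ) = ((a + b).val : ℂ) + ((p ^ c : ℕ) : ℂ) * (((a.val + b.val) / p ^ c : ℕ) : ℂ) := by
        exact_mod_cast congrArg (fun n : ℕ => (n : ℂ)) e1
      linear_combination (-(w x)) * e2

end Pool.Agent.TZ
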