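import Pool.Agent.helper12.TZ.Spec

/-! Row tz:INV (MP_baa4d7_al): invariance on the classes -/

set_option autoImplicit false

namespace Pool.Agent.TZ

open Pool.Agent.helper58.DC Pool.Agent.DI Pool.Agent.GR Pool.Agent.OB

theorem INV_cj {G : Type} [Group G] (d h : G) (K : Subgroup G) :
    h ∈ cj d K ↔ d⁻¹ * h * d ∈ K := by
  unfold cj
  constructor
  · rintro ⟨k, hk, rfl⟩
    have h1 : d⁻¹ * ((MulAut.conj d).toMonoidHom k) * d = k := by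
      show d⁻¹ * (d * k * d⁻¹) * d = k
      group
    rw [h1]
    exact hk
  · intro h1
    refine ⟨d⁻¹ * h * d, h1, ?_⟩
    show d * (d⁻¹ * h * d) * d⁻¹ = h
    group

theorem INV_card {G : Type} [Group G] (d : G) (C : Finset (Subgroup G)) :
    (chainMap (MulAut.conj d) C).card = C.card := by
  classical
  unfold chainMap
  apply Finset.card_image_of_injective
  intro P Q h
  exact Subgroup.map_injective (MulAut.conj d).injective h

theorem INV_cm {G : Type} [Group G] (m : ℕ) (D : Subgroup G) (x : Tr G) :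
    Cm (x.1 ^ m) (HX D x) := by
  intro h hh
  have h1 : h ∈ Subgroup.centralizer {x.1} := hh.1.2
  rw [Subgroup.mem_centralizer_singleton_iff] at h1
  have h2 : Commute h x.1 := h1
  exact (h2.pow_right m).eq

/-- the weights under conjugation by `d` with `d g = g d` -/
theorem INV_wt_cj {G : Type} [Group G] (g d : G) (hd : d * g = g * d) (x : Tr G) (ζ : G → ℂ)
    (hζ : ∀ u v, ζ (v * u * v⁻¹) = ζ u) : wt g ζ (cjT d x) = wt g ζ x := by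
  obtain ⟨t, y, C⟩ := x
  show (-1) ^ ((chainMap (MulAut.conj d) C).card + 1) *
    ζ (d * t * d⁻¹ * (d * y * d⁻¹) * (d * t * d⁻¹)⁻¹ * (d * y * d⁻¹)⁻¹ * g)⁻¹ =
      (-1) ^ (C.card + 1) * ζ (t * y * t⁻¹ * y⁻¹ * g)⁻¹
  rw [INV_card]
  congr 1
  have h1 : (d * t * d⁻¹ * (d * y * d⁻¹) * (d * t * d⁻¹)⁻¹ * (d * y * d⁻¹)⁻¹ * g)⁻¹ =
      d * (t * y * t⁻¹ * y⁻¹ * g)⁻¹ * d⁻¹ := by
    have h2 : d⁻¹ * g = g * d⁻¹ := by
      rw [inv_mul_eq_iff_eq_mul, ← mul_assoc, hd, mul_assoc, mul_inv_cancel, mul_one]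
    have h3 : d * t * d⁻¹ * (d * y * d⁻¹) * (d * t * d⁻¹)⁻¹ * (d * y * d⁻¹)⁻¹ * g =
        d * (t * y * t⁻¹ * y⁻¹) * (d⁻¹ * g) := by group
    rw [h3, h2]
    group
  rw [h1, hζ]

/-- the group `B` commutes with `t` -/
theorem INV_bt {G : Type} [Group G] (m : ℕ) (D : Subgroup G) (x : Tr G)
    (hU : UX m D x ≤ HX D x) : ∀ b ∈ BX m D x, b * x.1 = x.1 * b := by
  have h : BX m D x ≤ Subgroup.centralizer {x.1} := by
    refine sup_le ?_ ?_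
    · intro u hu
      exact (hU hu).1.2
    · rw [Subgroup.zpowers_le, Subgroup.mem_centralizer_singleton_iff]
      exact (Commute.pow_left (Commute.refl x.1) m).eq
  intro b hb
  exact Subgroup.mem_centralizer_singleton_iff.1 (h hb)

/-- translation: one direction of the invariance of `RL` -/
theorem INV_RL (hSTB : STB_stmt) {G : Type} [Group G] [Finite G] {p m : ℕ} {g : G} {D : Subgroup G}
    {x : Tr G} (hx : x ∈ XX p g D) {b : G} (hb : b ∈ BX m D x) (i : ℕ) (κ : G) (h : RL m D x i κ) :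
    RL m D (mR x b) i κ := by
  obtain ⟨h1, h2⟩ := h
  obtain ⟨-, hUH, hBab, hiff⟩ := hSTB G (x.1 ^ m) x.2.1 (HX D x) (INV_cm m D x) hx.2.2.2.2
  refine ⟨h1, ?_⟩
  have hsB : (x.1 ^ m) ^ i ∈ Bi (x.1 ^ m) x.2.1 (HX D x) :=
    Subgroup.mem_sup_right (Subgroup.npow_mem_zpowers _ _)
  have h3 : κ ∈ Ui (x.1 ^ m) x.2.1 (HX D x) := by
    rw [← hiff κ h1]
    have h4 : x.2.1⁻¹ * κ * x.2.1 * κ⁻¹ = (x.1 ^ m) ^ i := by
      rw [mul_assoc, mul_assoc, ← mul_assoc κ, h2]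
      group
    rw [h4]
    exact hsB
  have h5 : κ ∈ Bi (x.1 ^ m) x.2.1 (HX D x) := Subgroup.mem_sup_left h3
  have h6 : κ * b = b * κ := hBab κ h5 b hb
  show κ * (x.2.1 * b) * κ⁻¹ = x.2.1 * b * (x.1 ^ m) ^ i
  calc κ * (x.2.1 * b) * κ⁻¹ = (κ * x.2.1 * κ⁻¹) * (κ * b) * κ⁻¹ := by group
    _ = (x.2.1 * (x.1 ^ m) ^ i) * (b * κ) * κ⁻¹ := by rw [h2, h6]
    _ = x.2.1 * ((x.1 ^ m) ^ i * b) := by group
    _ = x.2.1 * (b * (x.1 ^ m) ^ i) := by rw [hBab _ hsB b hb]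
    _ = _ := by group

theorem INV (hCLA : CLA_stmt) (hCLB : CLB_stmt) (hSTB : STB_stmt) : INV_stmt := by
  intro G _ _ p m _ g D hD hDg x hx x' hx'
  obtain ⟨d, hd, b, hb, rfl⟩ := hx'
  obtain ⟨hz, hUz⟩ := hCLA G p m g D hD x hx b hb
  obtain ⟨hz', hHd, hUd, hBd⟩ := hCLB G p m g D hDg d hd (mR x b) hz
  obtain ⟨-, hUH, hBab, hiff⟩ := hSTB G (x.1 ^ m) x.2.1 (HX D x) (INV_cm m D x) hx.2.2.2.2
  have hbt := INV_bt m D x hUH b hb
  have hBz : BX m D (mR x b) = BX m D x := by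
    show UX m D (mR x b) ⊔ Subgroup.zpowers (x.1 ^ m) = UX m D x ⊔ Subgroup.zpowers (x.1 ^ m)
    rw [hUz]
  have hRL : ∀ i κ, RL m D (mR x b) i κ ↔ RL m D x i κ := by
    intro i κ
    constructor
    · intro h
      have hb' : b⁻¹ ∈ BX m D (mR x b) := by
        rw [hBz]
        exact Subgroup.inv_mem _ hb
      have h1 := INV_RL hSTB hz hb' i κ h
      have h2 : mR (mR x b) b⁻¹ = x := by
        unfold mR
        refine Prod.ext rfl (Prod.ext ?_ rfl)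
        show x.2.1 * b * b⁻¹ = x.2.1
        group
      rwa [h2] at h1
    · exact INV_RL hSTB hx hb i κ
  have hRLd : ∀ i κ, RL m D (cjT d (mR x b)) i κ ↔ RL m D (mR x b) i (d⁻¹ * κ * d) := by
    intro i κ
    unfold RL
    rw [hHd, INV_cj]
    have h1 : (κ * (cjT d (mR x b)).2.1 * κ⁻¹ = (cjT d (mR x b)).2.1 * ((cjT d (mR x b)).1 ^ m) ^ i) ↔
        (d⁻¹ * κ * d * (mR x b).2.1 * (d⁻¹ * κ * d)⁻¹ = (mR x b).2.1 * ((mR x b).1 ^ m) ^ i) := by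
      show (κ * (d * (mR x b).2.1 * d⁻¹) * κ⁻¹ = d * (mR x b).2.1 * d⁻¹ * ((d * (mR x b).1 * d⁻¹) ^ m) ^ i) ↔ _
      rw [conj_pow, conj_pow]
      constructor
      · intro h
        calc d⁻¹ * κ * d * (mR x b).2.1 * (d⁻¹ * κ * d)⁻¹
            = d⁻¹ * (κ * (d * (mR x b).2.1 * d⁻¹) * κ⁻¹) * d := by group
          _ = d⁻¹ * (d * (mR x b).2.1 * d⁻¹ * (d * ((mR x b).1 ^ m) ^ i * d⁻¹)) * d := by rw [h]
          _ = _ := by group
      · intro h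
        calc κ * (d * (mR x b).2.1 * d⁻¹) * κ⁻¹
            = d * (d⁻¹ * κ * d * (mR x b).2.1 * (d⁻¹ * κ * d)⁻¹) * d⁻¹ := by group
          _ = d * ((mR x b).2.1 * ((mR x b).1 ^ m) ^ i) * d⁻¹ := by rw [h]
          _ = _ := by group
    rw [h1]
  refine ⟨?_, ?_, ?_⟩
  · intro ζ hζ
    rw [INV_wt_cj g d (hDg d hd) _ ζ hζ]
    show (-1) ^ (x.2.2.card + 1) * ζ (x.1 * (x.2.1 * b) * x.1⁻¹ * (x.2.1 * b)⁻¹ * g)⁻¹ =
      (-1) ^ (x.2.2.card + 1) * ζ (x.1 * x.2.1 * x.1⁻¹ * x.2.1⁻¹ * g)⁻¹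
    have h1 : x.1 * (x.2.1 * b) * x.1⁻¹ * (x.2.1 * b)⁻¹ = x.1 * x.2.1 * x.1⁻¹ * x.2.1⁻¹ := by
      have h2 : b * x.1⁻¹ = x.1⁻¹ * b := by
        rw [eq_inv_mul_iff_mul_eq, ← mul_assoc, ← hbt, mul_assoc, mul_inv_cancel, mul_one]
      calc x.1 * (x.2.1 * b) * x.1⁻¹ * (x.2.1 * b)⁻¹ = x.1 * x.2.1 * (b * x.1⁻¹) * b⁻¹ * x.2.1⁻¹ := by group
        _ = _ := by
            rw [h2]
            group
    rw [h1]
  · intro hbot
    rw [eq_bot_iff]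
    intro h hh
    rw [Subgroup.mem_inf] at hh
    obtain ⟨hh1, hh2⟩ := hh
    rw [hUd, INV_cj, hUz] at hh1
    obtain ⟨j, hj⟩ := Subgroup.mem_zpowers_iff.1 hh2
    have hj' : (d * x.1 * d⁻¹) ^ m = d * x.1 ^ m * d⁻¹ := conj_pow
    have hj2 : h = (d * x.1 ^ m * d⁻¹) ^ j := by
      rw [← hj', ← hj]
      rfl
    rw [conj_zpow] at hj2
    have h3 : d⁻¹ * h * d ∈ UX m D x ⊓ Subgroup.zpowers (x.1 ^ m) := by
      rw [Subgroup.mem_inf]
      refine ⟨hh1, ?_⟩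
      have h4 : d⁻¹ * h * d = (x.1 ^ m) ^ j := by
        rw [hj2]
        group
      rw [h4]
      exact Subgroup.zpow_mem_zpowers _ _
    rw [hbot, Subgroup.mem_bot] at h3
    rw [Subgroup.mem_bot]
    calc h = d * (d⁻¹ * h * d) * d⁻¹ := by group
      _ = 1 := by rw [h3]; group
  · intro a κ hκ
    refine ⟨d, hd, ?_, ?_⟩
    · rw [hRLd, hRL]
      have h1 : d⁻¹ * (d * κ * d⁻¹) * d = κ := by group
      rw [h1]
      exact hκ.1
    · intro i hi1 hi2 κ' hκ'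
      rw [hRLd, hRL] at hκ'
      exact hκ.2 i hi1 hi2 _ hκ'

end Pool.Agent.TZ
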